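import Pool.Agent.Lib.Pad47bbQ.Fixing

/-!
If the translates of a rational polyhedral cone `P ⊆ K` cover the interior of `K`, and every point
of `K` is a nonnegative combination of lattice points of `K`, then they cover `K`.
-/

open Set Topology

namespace Pool.Agent.Lib.Pad47bbQ

open Pool.Agent.Lib.Pad47bb

variable {V : Type*} [NormedAddCommGroup V] [NormedSpace ℝ V]

theorem interior_add_mem {K : PointedCone ℝ V} {z k : V} (hz : z ∈ interior (K : Set V))
    (hk : k ∈ K) : z + k ∈ interior (K : Set V) := by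
  rw [mem_interior]
  refine ⟨(fun x => x + k) '' interior (K : Set V), ?_,
    (Homeomorph.addRight k).isOpenMap _ isOpen_interior, ⟨z, hz, rfl⟩⟩
  rintro _ ⟨x, hx, rfl⟩
  exact K.add_mem (interior_subset hx) hk

theorem interior_smul_mem {K : PointedCone ℝ V} {z : V} (hz : z ∈ interior (K : Set V)) {r : ℝ}
    (hr : 0 < r) : r • z ∈ interior (K : Set V) := by
  rw [mem_interior]
  refine ⟨(fun x => r • x) '' interior (K : Set V), ?_,
    (Homeomorph.smulOfNeZero r hr.ne').isOpenMap _ isOpen_interior, ⟨z, hz, rfl⟩⟩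
  rintro _ ⟨x, hx, rfl⟩
  exact PointedCone.smul_mem K hr.le (interior_subset hx)

/-- Automorphisms of the cone preserve the interior. -/
theorem interior_map_mem [FiniteDimensional ℝ V] {K : PointedCone ℝ V} {g : V ≃ₗ[ℝ] V}
    (hg : ∀ x ∈ K, g x ∈ K) {z : V} (hz : z ∈ interior (K : Set V)) :
    g z ∈ interior (K : Set V) := by
  rw [mem_interior]
  refine ⟨g '' interior (K : Set V), ?_,
    g.toContinuousLinearEquiv.toHomeomorph.isOpenMap _ isOpen_interior, ⟨z, hz, rfl⟩⟩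
  rintro _ ⟨x, hx, rfl⟩
  exact hg x (interior_subset hx)

theorem isClosed_hull {K : PointedCone ℝ V} (f : V →L[ℝ] ℝ)
    (hf : ∀ x ∈ closure (K : Set V), x ≠ 0 → 0 < f x) (s : Finset V) (hsK : (s : Set V) ⊆ K) :
    IsClosed (PointedCone.hull ℝ (s : Set V) : Set V) := by
  classical
  set s' := s.erase 0 with hs'
  have hfa : ∀ a : s', 0 < f (a : V) := fun a =>
    hf a (subset_closure (hsK (Finset.mem_of_mem_erase a.2))) (Finset.ne_of_mem_erase a.2)
  let Ψ : (s' → ℝ) → V := fun c => ∑ a : s', c a • (a : V)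
  have hΨc : Continuous Ψ := by fun_prop
  let B : ℝ → Set (s' → ℝ) := fun M => Set.pi univ fun a => Icc 0 (M / f (a : V))
  have hB : ∀ M, IsCompact (Ψ '' B M) := fun M => (isCompact_univ_pi fun _ => isCompact_Icc).image hΨc
  have hBsub : ∀ M, Ψ '' B M ⊆ (PointedCone.hull ℝ (s : Set V) : Set V) := by
    rintro M _ ⟨c, hc, rfl⟩
    refine Submodule.sum_mem _ fun a _ => ?_
    exact PointedCone.smul_mem _ (hc a (mem_univ a)).1
      (Submodule.subset_span (Finset.mem_of_mem_erase a.2))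
  have hsubB : ∀ M, ∀ x ∈ (PointedCone.hull ℝ (s : Set V) : Set V), f x ≤ M → x ∈ Ψ '' B M := by
    intro M x hx hxM
    obtain ⟨c, hc, hxc⟩ := mem_hull_finset.1 hx
    have hx' : x = Ψ fun a => c a := by
      rw [hxc]
      show ∑ a ∈ s, c a • a = ∑ a : s', c a • (a : V)
      rw [Finset.sum_coe_sort s' (fun a => c a • a), hs']
      by_cases h0 : (0 : V) ∈ s
      · rw [← Finset.add_sum_erase _ _ h0, smul_zero, zero_add]
      · rw [Finset.erase_eq_of_notMem h0]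
    refine ⟨fun a => c a, fun a _ => ⟨hc a (Finset.mem_of_mem_erase a.2), ?_⟩, hx'.symm⟩
    show c (a : V) ≤ M / f (a : V)
    rw [le_div_iff₀ (hfa a)]
    have h1 : f x = ∑ b : s', c b * f (b : V) := by
      rw [hx']; simp [Ψ]
    have h2 : c (a : V) * f (a : V) ≤ ∑ b : s', c b * f (b : V) :=
      Finset.single_le_sum (f := fun b : s' => c (b : V) * f (b : V))
        (fun b _ => mul_nonneg (hc b (Finset.mem_of_mem_erase b.2)) (hfa b).le) (Finset.mem_univ a)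
    linarith
  rw [← closure_subset_iff_isClosed]
  intro x hx
  have hopen : IsOpen {y : V | f y < f x + 1} := isOpen_lt f.continuous continuous_const
  have hx2 : x ∈ closure ((PointedCone.hull ℝ (s : Set V) : Set V) ∩ {y | f y < f x + 1}) := by
    rw [mem_closure_iff_nhds]
    intro U hU
    have h3 : U ∩ {y : V | f y < f x + 1} ∈ 𝓝 x :=
      Filter.inter_mem hU (hopen.mem_nhds (by show f x < f x + 1; linarith))
    obtain ⟨y, hy1, hy2⟩ := mem_closure_iff_nhds.1 hx _ h3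
    exact ⟨y, hy1.1, hy2, hy1.2⟩
  have h4 : closure ((PointedCone.hull ℝ (s : Set V) : Set V) ∩ {y | f y < f x + 1})
      ⊆ Ψ '' B (f x + 1) :=
    closure_minimal (fun y hy => hsubB _ y hy.1 (le_of_lt hy.2)) (hB _).isClosed
  exact hBsub _ (h4 hx2)

variable [FiniteDimensional ℝ V] {L : Submodule ℤ V} [DiscreteTopology L] [IsZLattice ℝ L]

theorem sum_interior {K : PointedCone ℝ V} {F : Finset V} (hF : (F : Set V) ⊆ K) {c : V → ℝ}
    (hc : ∀ a ∈ F, 0 < c a) (hz : ∑ a ∈ F, c a • a ∈ interior (K : Set V)) :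
    ∑ a ∈ F, a ∈ interior (K : Set V) := by
  set C : ℝ := 1 + ∑ a ∈ F, c a with hC
  have hsum : 0 ≤ ∑ a ∈ F, c a := Finset.sum_nonneg fun a ha => (hc a ha).le
  have hCpos : 0 < C := by linarith
  have hle : ∀ a ∈ F, c a ≤ C := by
    intro a ha
    have := Finset.single_le_sum (f := c) (fun b hb => (hc b hb).le) ha
    linarith
  have h1 : ∑ a ∈ F, a = C⁻¹ • (∑ a ∈ F, c a • a) + ∑ a ∈ F, (1 - C⁻¹ * c a) • a := by
    rw [Finset.smul_sum, ← Finset.sum_add_distrib]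
    refine Finset.sum_congr rfl fun a _ => ?_
    rw [smul_smul, ← add_smul]
    simp
  rw [h1]
  refine interior_add_mem (interior_smul_mem hz (inv_pos.2 hCpos)) ?_
  refine K.sum_mem fun a ha => PointedCone.smul_mem K ?_ (hF ha)
  have h2 : C⁻¹ * c a ≤ 1 := by
    rw [inv_mul_le_iff₀ hCpos]
    linarith [hle a ha]
  linarith

theorem finite_minimizers {K : PointedCone ℝ V} {Γ : Subgroup (V ≃ₗ[ℝ] V)} (S : Setting L K Γ)
    (s : Finset V) (hsL : (s : Set V) ⊆ L) (hsK : (s : Set V) ⊆ K) (f : V →L[ℝ] ℝ)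
    (hf : ∀ x ∈ closure (K : Set V), x ≠ 0 → 0 < f x) (hint : ∀ x ∈ L, ∃ n : ℤ, f x = n) :
    {γ : V ≃ₗ[ℝ] V | γ ∈ Γ ∧ ∃ z ∈ PointedCone.hull ℝ (s : Set V), z ∈ interior (K : Set V) ∧
      ∀ g ∈ Γ, f (γ z) ≤ f (g z)}.Finite := by
  classical
  obtain ⟨Φ, hΦΓ, hΦne, hΦ⟩ := dickson s (Γ : Set (V ≃ₗ[ℝ] V)) ⟨1, one_mem Γ⟩ f (by
    intro g hg a ha
    exact nat_values (L := L) hf hint (S.map_lattice g hg a (hsL ha))
      (S.map_cone g hg a (hsK ha)))
  have hfin : (⋃ φ ∈ (Φ : Set (V ≃ₗ[ℝ] V)), ⋃ F ∈ {F | F ∈ s.powerset ∧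
      ∑ a ∈ F, a ∈ interior (K : Set V)}, {γ : V ≃ₗ[ℝ] V | γ ∈ (Γ : Set (V ≃ₗ[ℝ] V)) ∧
        f (γ (∑ a ∈ F, a)) ≤ f (φ (∑ a ∈ F, a))}).Finite := by
    refine (Φ.finite_toSet).biUnion fun φ _ => ?_
    refine Set.Finite.biUnion ((s.powerset.finite_toSet).subset fun F hF => hF.1) fun F hF => ?_
    exact finite_le L K (Γ : Set (V ≃ₗ[ℝ] V)) S.map_lattice S.map_cone f hf _ hF.2 _
  refine hfin.subset ?_
  rintro γ ⟨hγ, z, hz, hzint, hmin⟩
  obtain ⟨φ, hφ, hle⟩ := hΦ γ hγ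
  obtain ⟨c, hc, hzc⟩ := mem_hull_finset.1 hz
  have heq : f (γ z) = f (φ z) := le_antisymm (hmin φ (hΦΓ hφ)) (hle z hz)
  set F := s.filter fun a => 0 < c a with hF
  have hFs : F ⊆ s := Finset.filter_subset _ _
  have hzF : z = ∑ a ∈ F, c a • a := by
    rw [hzc, hF, Finset.sum_filter]
    refine Finset.sum_congr rfl fun a ha => ?_
    by_cases h : 0 < c a
    · rw [if_pos h]
    · rw [if_neg h, le_antisymm (not_lt.1 h) (hc a ha), zero_smul]
  have hcpos : ∀ a ∈ F, 0 < c a := fun a ha => (Finset.mem_filter.1 ha).2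
  have hFint : ∑ a ∈ F, a ∈ interior (K : Set V) :=
    sum_interior (fun a ha => hsK (hFs ha)) hcpos (by rw [← hzF]; exact hzint)
  have hterm : ∀ a ∈ F, 0 ≤ c a * (f (γ a) - f (φ a)) := fun a ha =>
    mul_nonneg (hcpos a ha).le (sub_nonneg.2 (hle a (Submodule.subset_span (hFs ha))))
  have hsum0 : ∑ a ∈ F, c a * (f (γ a) - f (φ a)) = 0 := by
    have e1 : f (γ z) = ∑ a ∈ F, c a * f (γ a) := by rw [hzF]; simp [map_sum]
    have e2 : f (φ z) = ∑ a ∈ F, c a * f (φ a) := by rw [hzF]; simp [map_sum]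
    have e3 : ∑ a ∈ F, c a * (f (γ a) - f (φ a))
        = ∑ a ∈ F, c a * f (γ a) - ∑ a ∈ F, c a * f (φ a) := by
      rw [← Finset.sum_sub_distrib]
      exact Finset.sum_congr rfl fun a _ => by ring
    rw [e3, ← e1, ← e2, heq, sub_self]
  have heach := (Finset.sum_eq_zero_iff_of_nonneg hterm).1 hsum0
  have hea : ∀ a ∈ F, f (γ a) = f (φ a) := by
    intro a ha
    rcases mul_eq_zero.1 (heach a ha) with h | h
    · exact absurd h (hcpos a ha).ne'
    · linarith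
  refine mem_biUnion (x := φ) hφ (mem_biUnion (x := F) ⟨Finset.mem_powerset.2 hFs, hFint⟩ ⟨hγ, ?_⟩)
  have e4 : f (γ (∑ a ∈ F, a)) = f (φ (∑ a ∈ F, a)) := by
    rw [map_sum, map_sum, map_sum, map_sum]
    exact Finset.sum_congr rfl hea
  exact e4.le

theorem hull_mono_finset {s t : Finset V} (h : s ⊆ t) :
    PointedCone.hull ℝ (s : Set V) ≤ PointedCone.hull ℝ (t : Set V) :=
  Submodule.span_mono (by exact_mod_cast h)

/-- The closing-up lemma. -/
theorem closing {K : PointedCone ℝ V} {Γ : Subgroup (V ≃ₗ[ℝ] V)} (S : Setting L K Γ)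
    (s : Finset V) (hsL : (s : Set V) ⊆ L) (hsK : (s : Set V) ⊆ K)
    (hgen : ∀ x ∈ K, ∃ u : Finset V, (u : Set V) ⊆ L ∧ (u : Set V) ⊆ K ∧
      x ∈ PointedCone.hull ℝ (u : Set V))
    (hcov : ∀ x ∈ interior (K : Set V), ∃ g ∈ Γ, ∃ y ∈ PointedCone.hull ℝ (s : Set V), g y = x) :
    ∀ x ∈ K, ∃ g ∈ Γ, ∃ y ∈ PointedCone.hull ℝ (s : Set V), g y = x := by
  classical
  intro x hx
  obtain ⟨f, hpos, hint, -⟩ := exists_functional L K Γ S.map_lattice S.map_cone S.salient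
    S.interior_nonempty
  obtain ⟨e, he⟩ := S.interior_nonempty
  obtain ⟨u₁, hu₁L, hu₁K, hu₁⟩ := hgen x hx
  obtain ⟨u₂, hu₂L, hu₂K, hu₂⟩ := hgen e (interior_subset he)
  set U := u₁ ∪ u₂ with hU
  have hUL : (U : Set V) ⊆ L := by
    rw [hU, Finset.coe_union]; exact union_subset hu₁L hu₂L
  have hUK : (U : Set V) ⊆ K := by
    rw [hU, Finset.coe_union]; exact union_subset hu₁K hu₂K
  have hxU : x ∈ PointedCone.hull ℝ (U : Set V) := hull_mono_finset Finset.subset_union_left hu₁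
  have heU : e ∈ PointedCone.hull ℝ (U : Set V) := hull_mono_finset Finset.subset_union_right hu₂
  obtain ⟨Φ, hΦΓ, hΦne, hΦ⟩ := dickson U (Γ : Set (V ≃ₗ[ℝ] V)) ⟨1, one_mem Γ⟩ f (by
    intro g hg a ha
    exact nat_values (L := L) hpos hint (S.map_lattice g hg a (hUL ha))
      (S.map_cone g hg a (hUK ha)))
  let xs : ℕ → V := fun n => x + (1 / ((n : ℝ) + 1)) • e
  have hxsint : ∀ n, xs n ∈ interior (K : Set V) := by
    intro n
    show x + (1 / ((n : ℝ) + 1)) • e ∈ _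
    rw [add_comm]
    exact interior_add_mem (interior_smul_mem he (by positivity)) hx
  have hxsU : ∀ n, xs n ∈ PointedCone.hull ℝ (U : Set V) := fun n =>
    Submodule.add_mem _ hxU (PointedCone.smul_mem _ (by positivity) heU)
  have hmin : ∀ n, ∃ φ ∈ Φ, ∀ g ∈ Γ, f (φ (xs n)) ≤ f (g (xs n)) := by
    intro n
    obtain ⟨φ, hφ, hφmin⟩ := Φ.exists_min_image (fun ψ => f (ψ (xs n))) hΦne
    refine ⟨φ, hφ, fun g hg => ?_⟩
    obtain ⟨ψ, hψ, hψx⟩ := hΦ g hg
    exact (hφmin ψ hψ).trans (hψx _ (hxsU n))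
  choose φs hφs hφmin using hmin
  -- a constant subsequence
  obtain ⟨φ, hφinf⟩ : ∃ φ : V ≃ₗ[ℝ] V, {n : ℕ | φs n = φ}.Infinite := by
    by_contra h
    push Not at h
    have h1 : (⋃ φ ∈ (Φ : Set (V ≃ₗ[ℝ] V)), {n : ℕ | φs n = φ}).Finite :=
      Φ.finite_toSet.biUnion fun φ _ => h φ
    refine Set.infinite_univ (α := ℕ) (h1.subset ?_)
    intro n _
    exact mem_biUnion (x := φs n) (hφs n) rfl
  obtain ⟨n₀, hn₀⟩ := hφinf.nonempty
  have hφΓ : φ ∈ Γ := by
    have h1 := hΦΓ (hφs n₀)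
    have h2 : φs n₀ = φ := hn₀
    rw [h2] at h1
    exact h1
  have hfin := finite_minimizers S s hsL hsK f hpos hint
  -- the closed set
  let Z : Set V := ⋃ γ ∈ {γ : V ≃ₗ[ℝ] V | γ ∈ Γ ∧ ∃ z ∈ PointedCone.hull ℝ (s : Set V),
    z ∈ interior (K : Set V) ∧ ∀ g ∈ Γ, f (γ z) ≤ f (g z)},
      (γ : V → V) '' (PointedCone.hull ℝ (s : Set V) : Set V)
  have hZcl : IsClosed Z := by
    refine hfin.isClosed_biUnion fun γ _ => ?_
    exact γ.toContinuousLinearEquiv.toHomeomorph.isClosedMap _ (isClosed_hull f hpos s hsK)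
  have hmemZ : ∀ n ∈ {n : ℕ | φs n = φ}, φ (xs n) ∈ Z := by
    intro n hn
    have hn' : φs n = φ := hn
    have hint' : φ (xs n) ∈ interior (K : Set V) := interior_map_mem (S.map_cone φ hφΓ) (hxsint n)
    obtain ⟨γ, hγ, z, hz, hγz⟩ := hcov _ hint'
    refine mem_biUnion (x := γ) ⟨hγ, z, hz, ?_, ?_⟩ ⟨z, hz, hγz⟩
    · have h1 : z = γ⁻¹ (φ (xs n)) := by
        rw [← hγz]; exact (γ.symm_apply_apply z).symm
      rw [h1]
      exact interior_map_mem (S.map_cone _ (inv_mem hγ)) hint'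
    · intro g hg
      have h1 : z = γ⁻¹ (φ (xs n)) := by
        rw [← hγz]; exact (γ.symm_apply_apply z).symm
      rw [hγz]
      have h2 := hφmin n (g * γ⁻¹ * φ) (mul_mem (mul_mem hg (inv_mem hγ)) hφΓ)
      rw [hn'] at h2
      have h3 : (g * γ⁻¹ * φ) (xs n) = g z := by
        rw [h1]; rfl
      rwa [h3] at h2
  have hlim : Filter.Tendsto (fun n => φ (xs n)) Filter.atTop (𝓝 (φ x)) := by
    have h1 : Filter.Tendsto xs Filter.atTop (𝓝 x) := by
      have h2 : Filter.Tendsto (fun n : ℕ => (1 / ((n : ℝ) + 1))) Filter.atTop (𝓝 0) :=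
        tendsto_one_div_add_atTop_nhds_zero_nat
      have h3 := (tendsto_const_nhds (x := x)).add (h2.smul_const e)
      simpa [xs] using h3
    exact (φ.toContinuousLinearEquiv.continuous.tendsto x).comp h1
  have hxZ : φ x ∈ Z := by
    rw [← hZcl.closure_eq, mem_closure_iff_frequently]
    refine hlim.frequently (p := fun y => y ∈ Z) ?_
    rw [Filter.frequently_atTop]
    intro N
    obtain ⟨n, hn, hNn⟩ := hφinf.exists_gt N
    exact ⟨n, hNn.le, hmemZ n hn⟩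
  simp only [Z, mem_iUnion] at hxZ
  obtain ⟨γ, ⟨hγ, -⟩, y, hy, hyx⟩ := hxZ
  refine ⟨φ⁻¹ * γ, mul_mem (inv_mem hφΓ) hγ, y, hy, ?_⟩
  show φ⁻¹ (γ y) = x
  rw [hyx]
  exact φ.symm_apply_apply x

end Pool.Agent.Lib.Pad47bbQ
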