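import Pool.Agent.Lib.Pad47bbQ.Closing

/-!
Descent of rational polyhedral fundamental domains to the invariants of a finite group.
-/

open Set Topology

namespace Pool.Agent.Lib.Pad47bbQ

open Pool.Agent.Lib.Pad47bb

variable {V : Type*} [NormedAddCommGroup V] [NormedSpace ℝ V] [FiniteDimensional ℝ V]
  {W : Type*} [NormedAddCommGroup W] [NormedSpace ℝ W] [FiniteDimensional ℝ W]

/-- The group of all automorphisms of `(V, L, K)`. -/
def autGroup (L : Submodule ℤ V) (K : PointedCone ℝ V) : Subgroup (V ≃ₗ[ℝ] V) where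
  carrier := {g | (∀ x ∈ L, g x ∈ L) ∧ (∀ x ∈ L, g⁻¹ x ∈ L) ∧ (∀ x ∈ K, g x ∈ K) ∧
    ∀ x ∈ K, g⁻¹ x ∈ K}
  mul_mem' := by
    rintro a b ⟨h1, h2, h3, h4⟩ ⟨k1, k2, k3, k4⟩
    refine ⟨fun x hx => h1 _ (k1 x hx), fun x hx => ?_, fun x hx => h3 _ (k3 x hx),
      fun x hx => ?_⟩
    · rw [mul_inv_rev]; exact k2 _ (h2 x hx)
    · rw [mul_inv_rev]; exact k4 _ (h4 x hx)
  one_mem' := ⟨fun x hx => hx, fun x hx => by rw [inv_one]; exact hx, fun x hx => hx,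
    fun x hx => by rw [inv_one]; exact hx⟩
  inv_mem' := by
    rintro a ⟨h1, h2, h3, h4⟩
    exact ⟨h2, fun x hx => by rw [inv_inv]; exact h1 x hx, h4,
      fun x hx => by rw [inv_inv]; exact h3 x hx⟩

theorem le_autGroup {L : Submodule ℤ V} {K : PointedCone ℝ V} {Γ : Subgroup (V ≃ₗ[ℝ] V)}
    (hL : ∀ g ∈ Γ, ∀ x ∈ L, g x ∈ L) (hK : ∀ g ∈ Γ, ∀ x ∈ K, g x ∈ K) : Γ ≤ autGroup L K :=
  fun g hg => ⟨hL g hg, hL _ (inv_mem hg), hK g hg, hK _ (inv_mem hg)⟩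

/-- finitely many translates -/
theorem exists_finite_reps (C D : Subgroup (V ≃ₗ[ℝ] V)) (hfi : (D.subgroupOf C).FiniteIndex) :
    ∃ Q : Set (V ≃ₗ[ℝ] V), Q.Finite ∧ Q ⊆ C ∧ ∀ k ∈ C, ∃ d ∈ D, ∃ q ∈ Q, k = d * q := by
  classical
  have hfq : Finite (C ⧸ (D.subgroupOf C)) := Subgroup.finite_quotient_of_finiteIndex
  refine ⟨range fun q : C ⧸ (D.subgroupOf C) => ((q.out : C) : V ≃ₗ[ℝ] V)⁻¹, finite_range _, ?_, ?_⟩
  · rintro _ ⟨q, rfl⟩
    exact inv_mem (q.out).2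
  · intro k hk
    let q : C ⧸ (D.subgroupOf C) := QuotientGroup.mk (⟨k⁻¹, inv_mem hk⟩ : C)
    have hq : (q.out : C)⁻¹ * (⟨k⁻¹, inv_mem hk⟩ : C) ∈ D.subgroupOf C := by
      rw [← QuotientGroup.eq]
      exact QuotientGroup.out_eq' q
    rw [Subgroup.mem_subgroupOf] at hq
    have hq' : ((q.out : C) : V ≃ₗ[ℝ] V)⁻¹ * k⁻¹ ∈ D := hq
    refine ⟨(((q.out : C) : V ≃ₗ[ℝ] V)⁻¹ * k⁻¹)⁻¹, inv_mem hq', _, ⟨q, rfl⟩, ?_⟩
    group

section avg

variable (L : Submodule ℤ V) (M : Submodule ℤ W) (K : PointedCone ℝ V)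
  (H : Subgroup (V ≃ₗ[ℝ] V)) [Finite H] (p : W →ₗ[ℝ] V)

/-- The averaging lemma. -/
theorem avg (hp : Function.Injective p)
    (hrange : ∀ x, (∃ w, p w = x) ↔ ∀ h ∈ H, h x = x)
    (hLM : ∀ x ∈ L, (∀ h ∈ H, h x = x) → ∃ n : ℕ, 0 < n ∧ ∃ m ∈ M, p m = (n : ℝ) • x)
    (hHL : ∀ h ∈ H, ∀ x ∈ L, h x ∈ L) (hHK : ∀ h ∈ H, ∀ x ∈ K, h x ∈ K)
    (s : Finset V) (hsL : (s : Set V) ⊆ L) (hsK : (s : Set V) ⊆ K) (g : V ≃ₗ[ℝ] V)
    (hgL : ∀ x ∈ L, g x ∈ L) (hgK : ∀ x ∈ K, g x ∈ K) :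
    ∃ u : Finset W, (u : Set W) ⊆ M ∧ (∀ m ∈ u, p m ∈ K) ∧
      ∀ w, (∃ y ∈ PointedCone.hull ℝ (s : Set V), g y = p w) → w ∈ PointedCone.hull ℝ (u : Set W) := by
  classical
  have := Fintype.ofFinite H
  let b : V → V := fun a => ∑ h : H, (h : V ≃ₗ[ℝ] V) (g a)
  have hbL : ∀ a ∈ s, b a ∈ L := fun a ha =>
    L.sum_mem fun h _ => hHL h h.2 _ (hgL a (hsL ha))
  have hbK : ∀ a ∈ s, b a ∈ K := fun a ha =>
    K.sum_mem fun h _ => hHK h h.2 _ (hgK a (hsK ha))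
  have hbH : ∀ a, ∀ h ∈ H, h (b a) = b a := by
    intro a h hh
    show h (∑ k : H, (k : V ≃ₗ[ℝ] V) (g a)) = ∑ k : H, (k : V ≃ₗ[ℝ] V) (g a)
    rw [map_sum]
    exact Fintype.sum_equiv (Equiv.mulLeft (⟨h, hh⟩ : H)) _ _ fun k => rfl
  have hex : ∀ a ∈ s, ∃ n : ℕ, 0 < n ∧ ∃ m ∈ M, p m = (n : ℝ) • b a := fun a ha =>
    hLM (b a) (hbL a ha) (hbH a)
  choose! n hn m hm hpm using hex
  refine ⟨s.image m, ?_, ?_, ?_⟩
  · intro x hx
    obtain ⟨a, ha, rfl⟩ := Finset.mem_image.1 (Finset.mem_coe.1 hx)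
    exact hm a ha
  · intro x hx
    obtain ⟨a, ha, rfl⟩ := Finset.mem_image.1 hx
    rw [hpm a ha]
    exact PointedCone.smul_mem K (Nat.cast_nonneg _) (hbK a ha)
  · rintro w ⟨y, hy, hyw⟩
    obtain ⟨c, hc, hyc⟩ := mem_hull_finset.1 hy
    have hcard : (0 : ℝ) < Fintype.card H := by exact_mod_cast Fintype.card_pos
    have h1 : (Fintype.card H : ℝ) • p w = ∑ a ∈ s, c a • b a := by
      have h2 : ∑ h : H, (h : V ≃ₗ[ℝ] V) (p w) = (Fintype.card H : ℝ) • p w := by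
        have h20 : ∀ h : H, (h : V ≃ₗ[ℝ] V) (p w) = p w := fun h =>
          (hrange (p w)).1 ⟨w, rfl⟩ (h : V ≃ₗ[ℝ] V) h.2
        rw [Finset.sum_congr rfl fun h _ => h20 h, Finset.sum_const,
          Finset.card_univ, Nat.cast_smul_eq_nsmul]
      rw [← h2, ← hyw, hyc]
      show ∑ h : H, (h : V ≃ₗ[ℝ] V) (g (∑ a ∈ s, c a • a)) = _
      have h3 : ∀ h : H, (h : V ≃ₗ[ℝ] V) (g (∑ a ∈ s, c a • a))
          = ∑ a ∈ s, c a • (h : V ≃ₗ[ℝ] V) (g a) := by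
        intro h
        simp [map_sum, map_smul]
      rw [Finset.sum_congr rfl fun h _ => h3 h, Finset.sum_comm]
      exact Finset.sum_congr rfl fun a _ => by rw [← Finset.smul_sum]
    have h4 : w = ∑ a ∈ s, (c a * (Fintype.card H : ℝ)⁻¹ * (n a : ℝ)⁻¹) • m a := by
      apply hp
      rw [map_sum]
      have h5 : p w = (Fintype.card H : ℝ)⁻¹ • ∑ a ∈ s, c a • b a := by
        rw [← h1, smul_smul, inv_mul_cancel₀ hcard.ne', one_smul]
      rw [h5, Finset.smul_sum]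
      refine Finset.sum_congr rfl fun a ha => ?_
      have hn' : (n a : ℝ) ≠ 0 := by exact_mod_cast (hn a ha).ne'
      rw [map_smul, hpm a ha, smul_smul, smul_smul]
      congr 1
      field_simp
    rw [h4]
    refine Submodule.sum_mem _ fun a ha => PointedCone.smul_mem _ ?_
      (Submodule.subset_span (Finset.mem_coe.2 (Finset.mem_image_of_mem m ha)))
    have := hc a ha
    positivity

end avg

theorem mem_comap_cone {K : PointedCone ℝ V} {p : W →ₗ[ℝ] V} {w : W} :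
    w ∈ K.comap p ↔ p w ∈ K := Iff.rfl

/-- Descent theorem. -/
theorem descent {L : Submodule ℤ V} [DiscreteTopology L] [IsZLattice ℝ L]
    {M : Submodule ℤ W} [DiscreteTopology M] [IsZLattice ℝ M]
    {K : PointedCone ℝ V} {Γ : Subgroup (V ≃ₗ[ℝ] V)} (S : Setting L K Γ)
    (H : Subgroup (V ≃ₗ[ℝ] V)) [Finite H] (hHL : ∀ h ∈ H, ∀ x ∈ L, h x ∈ L)
    (hHK : ∀ h ∈ H, ∀ x ∈ K, h x ∈ K)
    (p : W →ₗ[ℝ] V) (hp : Function.Injective p)
    (hrange : ∀ x, (∃ w, p w = x) ↔ ∀ h ∈ H, h x = x)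
    (hLM : ∀ x ∈ L, (∀ h ∈ H, h x = x) → ∃ n : ℕ, 0 < n ∧ ∃ m ∈ M, p m = (n : ℝ) • x)
    (D : Subgroup (V ≃ₗ[ℝ] V))
    (hD : (D.subgroupOf (Γ ⊓ Subgroup.centralizer (H : Set (V ≃ₗ[ℝ] V)))).FiniteIndex)
    (Γ' : Subgroup (W ≃ₗ[ℝ] W)) (hM : ∀ g ∈ Γ', ∀ x ∈ M, g x ∈ M)
    (hK' : ∀ g ∈ Γ', ∀ x, p x ∈ K → p (g x) ∈ K)
    (hlift : ∀ d ∈ D, ∃ g ∈ Γ', ∀ w, p (g w) = d (p w))
    (hΓ : HasRPFD L Γ K) : HasRPFD M Γ' (K.comap p) := by
  classical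
  have := Fintype.ofFinite H
  have hpc : Continuous p := LinearMap.continuous_of_finiteDimensional p
  obtain ⟨P, ⟨s, hsL, rfl⟩, hcov, -⟩ := hΓ
  have hsK : (s : Set V) ⊆ K := by
    intro x hx
    show x ∈ (K : Set V)
    rw [hcov]
    exact mem_biUnion (one_mem Γ) ⟨x, Submodule.subset_span hx, rfl⟩
  have hcov' : ∀ x ∈ K, ∃ g ∈ Γ, ∃ y ∈ PointedCone.hull ℝ (s : Set V), g y = x := by
    intro x hx
    have h1 : x ∈ (K : Set V) := hx
    rw [hcov] at h1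
    simp only [mem_iUnion] at h1
    obtain ⟨g, hg, y, hy, hgy⟩ := h1
    exact ⟨g, hg, y, hy, hgy⟩
  have SA : Setting L K (autGroup L K) :=
    ⟨S.salient, S.interior_nonempty, fun g hg => hg.1, fun g hg => hg.2.2.1⟩
  have hΓA : Γ ≤ autGroup L K := le_autGroup S.map_lattice S.map_cone
  have hHA : H ≤ autGroup L K := le_autGroup hHL hHK
  have hT := finite_fixing SA s hsL hsK
  -- an invariant interior point
  obtain ⟨w₀, hw₀⟩ : ∃ w₀, p w₀ ∈ interior (K : Set V) := by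
    obtain ⟨z, hz⟩ := S.interior_nonempty
    have h1 : ∑ h : H, (h : V ≃ₗ[ℝ] V) z ∈ interior (K : Set V) := by
      rw [← Finset.add_sum_erase _ _ (Finset.mem_univ (1 : H))]
      refine interior_add_mem (interior_map_mem (hHK _ (1 : H).2) hz) ?_
      exact K.sum_mem fun h _ => hHK h h.2 z (interior_subset hz)
    have h2 : ∀ k ∈ H, k (∑ h : H, (h : V ≃ₗ[ℝ] V) z) = ∑ h : H, (h : V ≃ₗ[ℝ] V) z := by
      intro k hk
      rw [map_sum]
      exact Fintype.sum_equiv (Equiv.mulLeft (⟨k, hk⟩ : H)) _ _ fun h => rfl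
    obtain ⟨w, hw⟩ := (hrange _).2 h2
    exact ⟨w, by rw [hw]; exact h1⟩
  have hint : ∀ w ∈ interior ((K.comap p : PointedCone ℝ W) : Set W),
      p w ∈ interior (K : Set V) := by
    intro w hw
    have h1 : Filter.Tendsto (fun r : ℝ => w - r • w₀) (𝓝[>] 0) (𝓝 w) := by
      have h2 : Filter.Tendsto (fun r : ℝ => w - r • w₀) (𝓝 0) (𝓝 (w - (0 : ℝ) • w₀)) := by
        apply Continuous.tendsto
        fun_prop
      rw [zero_smul, sub_zero] at h2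
      exact h2.mono_left nhdsWithin_le_nhds
    have h3 := (h1.eventually (isOpen_interior.mem_nhds hw)).and self_mem_nhdsWithin
    obtain ⟨r, hr1, hr2⟩ := h3.exists
    have h40 : w - r • w₀ ∈ K.comap p :=
      interior_subset (s := ((K.comap p : PointedCone ℝ W) : Set W)) hr1
    have h4 : p (w - r • w₀) ∈ K := h40
    have h5 : p w = r • p w₀ + p (w - r • w₀) := by
      rw [map_sub, map_smul]; abel
    rw [h5]
    exact interior_add_mem (interior_smul_mem hw₀ hr2) h4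
  have S' : Setting M (K.comap p) Γ' := by
    refine ⟨?_, ?_, hM, hK'⟩
    · intro x hx hx'
      have h1 : ∀ y ∈ closure ((K.comap p : PointedCone ℝ W) : Set W), p y ∈ closure (K : Set V) :=
        fun y hy => map_mem_closure hpc hy fun z hz => hz
      apply hp
      rw [map_zero]
      refine S.salient _ (h1 x hx) ?_
      rw [← map_neg]
      exact h1 _ hx'
    · refine ⟨w₀, ?_⟩
      rw [mem_interior]
      exact ⟨p ⁻¹' interior (K : Set V), fun y hy => interior_subset (s := (K : Set V)) hy,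
        isOpen_interior.preimage hpc, hw₀⟩
  -- relevant elements
  let rel : Set (V ≃ₗ[ℝ] V) := {g | g ∈ Γ ∧ ∃ y ∈ PointedCone.hull ℝ (s : Set V),
    y ∈ interior (K : Set V) ∧ ∀ h ∈ H, h (g y) = g y}
  let cj : (V ≃ₗ[ℝ] V) → (H → (V ≃ₗ[ℝ] V)) := fun g h => g⁻¹ * h * g
  have hcj : (cj '' rel).Finite := by
    have h1 : (Set.pi univ fun _ : H => {t : V ≃ₗ[ℝ] V | t ∈ autGroup L K ∧
        ∃ y ∈ PointedCone.hull ℝ (s : Set V), y ∈ interior (K : Set V) ∧ t y = y}).Finite :=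
      Set.Finite.pi fun _ => hT
    refine h1.subset ?_
    rintro _ ⟨g, ⟨hg, y, hy, hyint, hfix⟩, rfl⟩ h _
    refine ⟨mul_mem (mul_mem (inv_mem (hΓA hg)) (hHA h.2)) (hΓA hg), y, hy, hyint, ?_⟩
    show g⁻¹ ((h : V ≃ₗ[ℝ] V) (g y)) = y
    rw [hfix h h.2]
    exact g.symm_apply_apply y
  obtain ⟨Q, hQfin, hQC, hQ⟩ := exists_finite_reps _ D hD
  -- representatives of the values of `cj`
  have hsec : ∀ c ∈ cj '' rel, ∃ g ∈ rel, cj g = c := fun c hc => hc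
  choose! sec hsec1 hsec2 using hsec
  let R : Set (V ≃ₗ[ℝ] V) := (fun q : (V ≃ₗ[ℝ] V) × (H → (V ≃ₗ[ℝ] V)) => q.1 * sec q.2) ''
    (Q ×ˢ (cj '' rel))
  have hRfin : R.Finite := (hQfin.prod hcj).image _
  have hRΓ : ∀ r ∈ R, r ∈ Γ := by
    rintro _ ⟨⟨q, c⟩, ⟨hq, hc⟩, rfl⟩
    exact mul_mem (hQC hq).1 (hsec1 c hc).1
  have hR : ∀ g ∈ rel, ∃ d ∈ D, ∃ r ∈ R, g = d * r := by
    intro g hg
    have hc : cj g ∈ cj '' rel := ⟨g, hg, rfl⟩
    have hg₀ := hsec1 (cj g) hc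
    have hcg := hsec2 (cj g) hc
    have hk : g * (sec (cj g))⁻¹ ∈ Γ ⊓ Subgroup.centralizer (H : Set (V ≃ₗ[ℝ] V)) := by
      have hg1 : g ∈ Γ := hg.1
      have hg2 : sec (cj g) ∈ Γ := hg₀.1
      refine Subgroup.mem_inf.2 ⟨mul_mem hg1 (inv_mem hg2), Subgroup.mem_centralizer_iff.2 ?_⟩
      intro h hh
      have h1 := congrFun hcg ⟨h, hh⟩
      have h2 : (sec (cj g))⁻¹ * h * sec (cj g) = g⁻¹ * h * g := h1
      have h3 : h = sec (cj g) * (g⁻¹ * h * g) * (sec (cj g))⁻¹ := by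
        rw [← h2]; group
      have h4 : g * (sec (cj g))⁻¹ * h = h * (g * (sec (cj g))⁻¹) := by
        conv_lhs => rw [h3]
        group
      exact h4.symm
    obtain ⟨d, hd, q, hq, hdq⟩ := hQ _ hk
    refine ⟨d, hd, q * sec (cj g), ⟨(q, cj g), ⟨hq, hc⟩, rfl⟩, ?_⟩
    rw [← mul_assoc, ← hdq]
    group
  -- the cone
  have hu : ∀ r ∈ autGroup L K, ∃ u : Finset W, (u : Set W) ⊆ M ∧ (∀ m ∈ u, p m ∈ K) ∧
      ∀ w, (∃ y ∈ PointedCone.hull ℝ (s : Set V), r y = p w) →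
        w ∈ PointedCone.hull ℝ (u : Set W) := fun r hr =>
    avg L M K H p hp hrange hLM hHL hHK s hsL hsK r hr.1 hr.2.2.1
  choose! u huM huK hu using hu
  let t : Finset W := hRfin.toFinset.biUnion u
  have htM : (t : Set W) ⊆ M := by
    intro x hx
    obtain ⟨r, hr, hxr⟩ := Finset.mem_biUnion.1 (Finset.mem_coe.1 hx)
    exact huM r (hΓA (hRΓ r (hRfin.mem_toFinset.1 hr))) hxr
  have htK : (t : Set W) ⊆ (K.comap p : PointedCone ℝ W) := by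
    intro x hx
    obtain ⟨r, hr, hxr⟩ := Finset.mem_biUnion.1 (Finset.mem_coe.1 hx)
    exact huK r (hΓA (hRΓ r (hRfin.mem_toFinset.1 hr))) x hxr
  have hgen : ∀ x ∈ K.comap p, ∃ u : Finset W, (u : Set W) ⊆ M ∧
      (u : Set W) ⊆ (K.comap p : PointedCone ℝ W) ∧ x ∈ PointedCone.hull ℝ (u : Set W) := by
    intro x hx
    obtain ⟨g, hg, y, hy, hgy⟩ := hcov' (p x) hx
    exact ⟨u g, huM g (hΓA hg), fun m hm => huK g (hΓA hg) m hm, hu g (hΓA hg) x ⟨y, hy, hgy⟩⟩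
  have hcovW : ∀ x ∈ interior ((K.comap p : PointedCone ℝ W) : Set W),
      ∃ g ∈ Γ', ∃ y ∈ PointedCone.hull ℝ (t : Set W), g y = x := by
    intro x hx
    have hpx := hint x hx
    obtain ⟨g, hg, y, hy, hgy⟩ := hcov' (p x) (interior_subset hpx)
    have hyint : y ∈ interior (K : Set V) := by
      have h1 : y = g⁻¹ (p x) := by
        rw [← hgy]; exact (g.symm_apply_apply y).symm
      rw [h1]
      exact interior_map_mem (S.map_cone _ (inv_mem hg)) hpx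
    have hgrel : g ∈ rel := ⟨hg, y, hy, hyint, by
      rw [hgy]; exact (hrange _).1 ⟨x, rfl⟩⟩
    obtain ⟨d, hd, r, hr, hgdr⟩ := hR g hgrel
    obtain ⟨g', hg', hlg⟩ := hlift d hd
    have h2 : g' (g'⁻¹ x) = x := g'.apply_symm_apply x
    have h3 : r y = p (g'⁻¹ x) := by
      apply d.injective
      rw [← hlg, h2, ← hgy, hgdr]
      rfl
    refine ⟨g', hg', g'⁻¹ x, ?_, h2⟩
    have h4 : u r ⊆ t := Finset.subset_biUnion_of_mem u (hRfin.mem_toFinset.2 hr)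
    exact hull_mono_finset h4 (hu r (hΓA (hRΓ r hr)) _ ⟨y, hy, h3⟩)
  have hfull := closing S' t htM htK hgen hcovW
  refine exists_fundDomain S' ⟨t, htM, rfl⟩ (Subset.antisymm ?_ ?_)
  · intro x hx
    obtain ⟨g, hg, y, hy, hgy⟩ := hfull x hx
    exact mem_biUnion hg ⟨y, hy, hgy⟩
  · refine iUnion₂_subset fun g hg => ?_
    rintro _ ⟨y, hy, rfl⟩
    have h1 : PointedCone.hull ℝ (t : Set W) ≤ K.comap p := Submodule.span_le.2 htK
    exact S'.map_cone g hg y (h1 hy)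

end Pool.Agent.Lib.Pad47bbQ
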