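import Pool.Agent.Lib.Pad47bb.Index

/-!
A finiteness lemma: for a rational polyhedral cone `P ⊆ K`, only finitely many automorphisms of
`(L, K)` fix a point of `P` lying in the interior of `K`.
-/

open Set Topology

namespace Pool.Agent.Lib.Pad47bbQ

open Pool.Agent.Lib.Pad47bb

variable {V : Type*} [NormedAddCommGroup V] [NormedSpace ℝ V]

theorem exists_infinite_subset (s : Finset V) (T : Set (V ≃ₗ[ℝ] V)) (hT : T.Infinite) :
    ∃ T' ⊆ T, T'.Infinite ∧ ∃ s₁ ⊆ s, (∀ a ∈ s₁, ∀ t ∈ T', ∀ t' ∈ T', t a = t' a) ∧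
      ∀ a ∈ s, a ∉ s₁ → ∀ v, {t | t ∈ T' ∧ t a = v}.Finite := by
  classical
  induction s using Finset.induction_on with
  | empty => exact ⟨T, Subset.rfl, hT, ∅, Finset.Subset.refl _, by simp, by simp⟩
  | insert b s hb ih =>
    obtain ⟨T', hT'T, hT'inf, s₁, hs₁, h1, h2⟩ := ih
    by_cases hv : ∃ v, {t | t ∈ T' ∧ t b = v}.Infinite
    · obtain ⟨v, hv⟩ := hv
      refine ⟨{t | t ∈ T' ∧ t b = v}, fun t ht => hT'T ht.1, hv, insert b s₁,
        Finset.insert_subset_insert b hs₁, ?_, ?_⟩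
      · intro a ha t ht t' ht'
        rcases Finset.mem_insert.1 ha with rfl | ha
        · rw [ht.2, ht'.2]
        · exact h1 a ha t ht.1 t' ht'.1
      · intro a ha ha' w
        have hab : a ≠ b := fun h => ha' (by rw [h]; exact Finset.mem_insert_self _ _)
        have has : a ∈ s := by
          rcases Finset.mem_insert.1 ha with h | h
          · exact absurd h hab
          · exact h
        have has₁ : a ∉ s₁ := fun h => ha' (Finset.mem_insert_of_mem h)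
        exact (h2 a has has₁ w).subset fun t ht => ⟨ht.1.1, ht.2⟩
    · refine ⟨T', hT'T, hT'inf, s₁, hs₁.trans (Finset.subset_insert _ _), h1, ?_⟩
      intro a ha ha' w
      rcases Finset.mem_insert.1 ha with rfl | ha
      · by_contra h
        exact hv ⟨w, h⟩
      · exact h2 a ha ha' w

variable [FiniteDimensional ℝ V] {L : Submodule ℤ V} [DiscreteTopology L] [IsZLattice ℝ L]

omit [IsZLattice ℝ L] in
/-- lattice points of the cone with bounded functional form a finite set -/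
theorem finite_points {K : PointedCone ℝ V} (f : V →L[ℝ] ℝ)
    (hf : ∀ x ∈ closure (K : Set V), x ≠ 0 → 0 < f x) (C : ℝ) :
    {x : V | x ∈ L ∧ x ∈ K ∧ f x ≤ C}.Finite := by
  obtain ⟨ε, hε, hb⟩ := exists_bound K f hf
  refine (finite_of_bounded L (C / ε)).subset ?_
  rintro x ⟨hx1, hx2, hx3⟩
  refine ⟨hx1, ?_⟩
  rw [le_div_iff₀ hε]
  have := hb x (subset_closure hx2)
  linarith

/-- Iterates composed with a functional. -/
noncomputable def pw (f : V →L[ℝ] ℝ) (t : V ≃ₗ[ℝ] V) (m : ℕ) : V →L[ℝ] ℝ :=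
  ∑ k ∈ Finset.range m, f.comp (LinearMap.toContinuousLinearMap ((t ^ k : V ≃ₗ[ℝ] V) : V →ₗ[ℝ] V))

theorem pw_apply (f : V →L[ℝ] ℝ) (t : V ≃ₗ[ℝ] V) (m : ℕ) (x : V) :
    pw f t m x = ∑ k ∈ Finset.range m, f ((t ^ k) x) := by
  simp [pw]

theorem pw_inv (f : V →L[ℝ] ℝ) (t : V ≃ₗ[ℝ] V) (m : ℕ) (ht : t ^ m = 1) (x : V) :
    pw f t m (t x) = pw f t m x := by
  rw [pw_apply, pw_apply]
  have h1 : ∀ k, (t ^ k) (t x) = (t ^ (k + 1)) x := fun k => by rw [pow_succ]; rfl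
  simp only [h1]
  have h2 := Finset.sum_range_succ (fun k => f ((t ^ k) x)) m
  have h3 := Finset.sum_range_succ' (fun k => f ((t ^ k) x)) m
  rw [ht] at h2
  simp only [pow_zero] at h3
  linarith

theorem finite_fixing {K : PointedCone ℝ V} {Γ : Subgroup (V ≃ₗ[ℝ] V)} (S : Setting L K Γ)
    (s : Finset V) (hsL : (s : Set V) ⊆ L) (hsK : (s : Set V) ⊆ K) :
    {t : V ≃ₗ[ℝ] V | t ∈ Γ ∧ ∃ y ∈ PointedCone.hull ℝ (s : Set V),
      y ∈ interior (K : Set V) ∧ t y = y}.Finite := by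
  classical
  by_contra hinf
  obtain ⟨T, hT, hTinf, s₁, hs₁, h1, h2⟩ := exists_infinite_subset s _ hinf
  obtain ⟨f, hf⟩ := exists_pos K S.salient
  obtain ⟨t₁, ht₁⟩ := hTinf.nonempty
  -- `t₁` has finite order
  obtain ⟨hΓ₁, z, -, hz, htz⟩ := hT ht₁
  have hpowz : ∀ k : ℕ, (t₁ ^ k) z = z := by
    intro k
    induction k with
    | zero => rfl
    | succ k ih => rw [pow_succ]; show (t₁ ^ k) (t₁ z) = z; rw [htz, ih]
  have hfo : ∃ m : ℕ, 0 < m ∧ t₁ ^ m = 1 := by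
    have hfin := finite_le L K (Γ : Set (V ≃ₗ[ℝ] V)) S.map_lattice S.map_cone f hf z hz (f z)
    have : ¬ Function.Injective fun k : ℕ => t₁ ^ k := by
      intro hinj
      refine Set.infinite_range_of_injective hinj (hfin.subset ?_)
      rintro _ ⟨k, rfl⟩
      exact ⟨pow_mem hΓ₁ k, by rw [hpowz k]⟩
    rwa [injective_pow_iff_not_isOfFinOrder, Classical.not_not, isOfFinOrder_iff_pow_eq_one] at this
  obtain ⟨m, hm, htm⟩ := hfo
  -- the invariant functional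
  set φ := pw f t₁ m with hφ
  have hφpos : ∀ x ∈ closure (K : Set V), x ≠ 0 → 0 < φ x := by
    intro x hx hx0
    rw [hφ, pw_apply]
    have hcl : ∀ k : ℕ, (t₁ ^ k) x ∈ closure (K : Set V) := by
      intro k
      have hc : Continuous ((t₁ ^ k : V ≃ₗ[ℝ] V) : V → V) :=
        LinearMap.continuous_of_finiteDimensional ((t₁ ^ k : V ≃ₗ[ℝ] V) : V →ₗ[ℝ] V)
      exact map_mem_closure hc hx fun y hy => S.map_cone _ (pow_mem hΓ₁ k) y hy
    refine Finset.sum_pos (fun k _ => hf _ (hcl k) ?_) ⟨0, Finset.mem_range.2 hm⟩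
    exact fun h => hx0 (by simpa using h)
  -- `t a` escapes for `a ∉ s₁`
  have hbad : ∀ a ∈ s, a ∉ s₁ → {t | t ∈ T ∧ φ (t a) ≤ φ a}.Finite := by
    intro a ha ha'
    have hfin := finite_points (L := L) (K := K) φ hφpos (φ a)
    have : {t | t ∈ T ∧ φ (t a) ≤ φ a} ⊆
        ⋃ v ∈ {x : V | x ∈ L ∧ x ∈ K ∧ φ x ≤ φ a}, {t | t ∈ T ∧ t a = v} := by
      rintro t ⟨ht, hle⟩
      have htΓ := (hT ht).1
      exact mem_biUnion ⟨S.map_lattice t htΓ a (hsL ha), S.map_cone t htΓ a (hsK ha), hle⟩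
        ⟨ht, rfl⟩
    exact (hfin.biUnion fun v _ => h2 a ha ha' v).subset this
  have hbad' : (⋃ a ∈ (s \ s₁ : Finset V), {t | t ∈ T ∧ φ (t a) ≤ φ a}).Finite :=
    (Finset.finite_toSet (s \ s₁)).biUnion fun a ha => by
      have := Finset.mem_sdiff.1 ha
      exact hbad a this.1 this.2
  obtain ⟨t, htT, htbad⟩ := hTinf.exists_notMem_finite hbad'
  have htgood : ∀ a ∈ s, a ∉ s₁ → φ a < φ (t a) := by
    intro a ha ha'
    by_contra h
    exact htbad (mem_biUnion (Finset.mem_sdiff.2 ⟨ha, ha'⟩) ⟨htT, not_lt.1 h⟩)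
  obtain ⟨htΓ, y, hyP, hyint, hty⟩ := hT htT
  obtain ⟨c, hc, hyc⟩ := mem_hull_finset.1 hyP
  have hsum : ∑ a ∈ s, c a * (φ (t a) - φ a) = 0 := by
    have e1 : φ (t y) = ∑ a ∈ s, c a * φ (t a) := by
      rw [hyc]; simp [map_sum]
    have e2 : φ y = ∑ a ∈ s, c a * φ a := by
      conv_lhs => rw [hyc]
      simp [map_sum]
    have e3 : ∑ a ∈ s, c a * (φ (t a) - φ a) = ∑ a ∈ s, c a * φ (t a) - ∑ a ∈ s, c a * φ a := by
      rw [← Finset.sum_sub_distrib]
      exact Finset.sum_congr rfl fun a _ => by ring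
    rw [e3, ← e1, ← e2, hty, sub_self]
  have hnn : ∀ a ∈ s, 0 ≤ c a * (φ (t a) - φ a) := by
    intro a ha
    by_cases ha' : a ∈ s₁
    · have : t a = t₁ a := h1 a ha' t htT t₁ ht₁
      rw [this, hφ, pw_inv f t₁ m htm, sub_self, mul_zero]
    · exact mul_nonneg (hc a ha) (sub_nonneg.2 (htgood a ha ha').le)
  have hzero := (Finset.sum_eq_zero_iff_of_nonneg hnn).1 hsum
  have hc0 : ∀ a ∈ s, a ∉ s₁ → c a = 0 := by
    intro a ha ha'
    rcases mul_eq_zero.1 (hzero a ha) with h | h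
    · exact h
    · exact absurd h (sub_pos.2 (htgood a ha ha')).ne'
  -- all elements of `T` fix `y`
  have hfixy : ∀ t' ∈ T, t' y = y := by
    intro t' ht'
    rw [← hty]
    conv_lhs => rw [hty]
    rw [hyc, map_sum, map_sum]
    refine Finset.sum_congr rfl fun a ha => ?_
    rw [map_smul, map_smul]
    by_cases ha' : a ∈ s₁
    · rw [h1 a ha' t' ht' t htT]
    · rw [hc0 a ha ha', zero_smul, zero_smul]
  refine hTinf ((finite_le L K (Γ : Set (V ≃ₗ[ℝ] V)) S.map_lattice S.map_cone f hf y hyint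
    (f y)).subset ?_)
  intro t' ht'
  exact ⟨(hT ht').1, by rw [hfixy t' ht']⟩

end Pool.Agent.Lib.Pad47bbQ
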